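import Pool.Agent.Helper14.TT.StU
import Pool.Agent.Helper9.CV.M_Rmap

/-!
# TT MODULE RmapS: the quadrilateral relation maps `antiOS k η ε` onto `antiFS k η ε`
-/

set_option autoImplicit false

namespace Pool.Agent.Helper4.TT

open Pool.Agent.Helper14.TT Pool.Agent.Helper14.CV
open Pool.Agent.Helper76.TX (antiOS antiFS Sg)
open Pool.Agent.Helper9.CV (AP Tt rm_inv rm_inv_rho' rm_neg_h Rq_AP Rq_swap Rq_neg Rq_eq)

variable {k : ℕ}

private theorem sg_sq {w : ℤ} (h : Sg w) : (w : ℂ) * (w : ℂ) = 1 := by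
  rcases h with h | h <;> subst h <;> norm_num

/-- `R` maps `antiOS` to `antiFS`. -/
private theorem maps (hk : 1 ≤ k) {η ε : ℤ} (hη : Sg η) (hε : Sg ε)
    {f : ZMod (2 ^ k) → ZMod (2 ^ k) → ℂ} (h : f ∈ antiOS k η ε) :
    Rq k f ∈ antiFS k η ε := by
  have h' : ∀ x y, f (x + 2 ^ (k - 1)) y = -f x y ∧ f x (y + 2 ^ (k - 1)) = -f x y ∧
    f y x = (η : ℂ) * f x y ∧ f (-x) (-y) = (ε : ℂ) * f x y := h
  have hη2 := sg_sq hη
  have hε2 := sg_sq hε
  have hap : AP f := fun x y => ⟨(h' x y).1, (h' x y).2.1⟩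
  have hs : (fun a b => f b a) = (η : ℂ) • f := by
    funext a b
    simp only [Pi.smul_apply, smul_eq_mul]
    exact (h' a b).2.2.1
  have hn : (fun a b => f (-a) (-b)) = (ε : ℂ) • f := by
    funext a b
    simp only [Pi.smul_apply, smul_eq_mul]
    exact (h' a b).2.2.2
  change ∀ x y, _
  intro x y
  refine ⟨(Rq_AP hk hap x y).1, (Rq_AP hk hap x y).2, ?_, ?_⟩
  · have := Rq_swap f x y
    rw [hs, map_smul] at this
    simp only [Pi.smul_apply, smul_eq_mul] at this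
    exact this.symm
  · have := Rq_neg f x y
    rw [hn, map_smul] at this
    simp only [Pi.smul_apply, smul_eq_mul] at this
    linear_combination this

/-- `R` maps `antiOS` onto `antiFS`. -/
private theorem onto (hk : 1 ≤ k) {η ε : ℤ} (hη : Sg η) (hε : Sg ε)
    {F : ZMod (2 ^ k) → ZMod (2 ^ k) → ℂ} (h : F ∈ antiFS k η ε) :
    ∃ f ∈ antiOS k η ε, Rq k f = F := by
  have h' : ∀ x y, F (x + 2 ^ (k - 1)) y = -F x y ∧ F x (y + 2 ^ (k - 1)) = -F x y ∧
    F y x = (η : ℂ) * F x y ∧ F (-x - 1) (-y * (1 + 2 * y)⁻¹) = -((ε : ℂ) * F x y) := h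
  have hη2 := sg_sq hη
  have hε2 := sg_sq hε
  have hap : AP F := fun x y => ⟨(h' x y).1, (h' x y).2.1⟩
  have hs : ∀ x y, F y x = (η : ℂ) * F x y := fun x y => (h' x y).2.2.1
  have hr : ∀ x y, F (-x - 1) (-y * (1 + 2 * y)⁻¹) = -((ε : ℂ) * F x y) :=
    fun x y => (h' x y).2.2.2
  have hr' : ∀ x y, F (-x * (1 + 2 * x)⁻¹) (-y - 1) = -((ε : ℂ) * F x y) := by
    intro x y
    rw [hs, hr, hs]
    linear_combination (-(ε : ℂ) * F x y) * hη2
  have hv : ∀ x y, F (vv x) (vv y) = F x y := by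
    intro x y
    have h1 := hr (-x * (1 + 2 * x)⁻¹) (-y - 1)
    rw [hr'] at h1
    have a1 : -(-x * (1 + 2 * x)⁻¹) - 1 = vv x := by
      unfold vv; linear_combination rm_inv x
    have a2 : -(-y - 1) * (1 + 2 * (-y - 1))⁻¹ = vv y := by
      rw [rm_inv_rho']; unfold vv; ring
    rw [a1, a2] at h1
    rw [h1]
    linear_combination (F x y) * hε2
  -- the preimage
  set f0 : ZMod (2 ^ k) → ZMod (2 ^ k) → ℂ :=
    (-(1 / 4 : ℂ)) • ∑ i ∈ Finset.range (2 ^ (k - 1)), Tt^[i] F with hf0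
  have hf0a : ∀ x y, f0 x y =
      (-(1 / 4 : ℂ)) * ∑ i ∈ Finset.range (2 ^ (k - 1)), (Tt^[i] F) x y := by
    intro x y
    rw [hf0]
    simp only [Pi.smul_apply, Finset.sum_apply, smul_eq_mul]
  have hf0ap : AP f0 := by
    intro x y
    constructor
    · rw [hf0a, hf0a, Finset.sum_congr rfl fun i _ => (hap.iter hk i x y).1,
        Finset.sum_neg_distrib]
      ring
    · rw [hf0a, hf0a, Finset.sum_congr rfl fun i _ => (hap.iter hk i x y).2,
        Finset.sum_neg_distrib]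
      ring
  have hT : ∀ x y, Tt f0 x y - f0 x y = F x y / 2 := by
    intro x y
    have e1 : Tt f0 x y =
        (-(1 / 4 : ℂ)) * ∑ i ∈ Finset.range (2 ^ (k - 1)), (Tt^[i + 1] F) x y := by
      have : Tt f0 x y = f0 (x + 1) (y * (1 + 2 * y)⁻¹) := rfl
      rw [this, hf0a]
      congr 1
      refine Finset.sum_congr rfl fun i _ => ?_
      rw [Function.iterate_succ_apply']
      rfl
    rw [e1, hf0a, ← mul_sub, ← Finset.sum_sub_distrib,
      Finset.sum_range_sub (fun i => (Tt^[i] F) x y), hap.iter_h hk]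
    simp only [Function.iterate_zero, id_eq]
    ring
  have hR0 : Rq k f0 = F := by
    funext x y
    rw [Rq_eq, hT, hT, hv]
    ring
  clear_value f0
  -- the average
  set f1 : ZMod (2 ^ k) → ZMod (2 ^ k) → ℂ := fun a b => f0 (-a) (-b) with hf1
  set f2 : ZMod (2 ^ k) → ZMod (2 ^ k) → ℂ := fun a b => f0 b a with hf2
  set f3 : ZMod (2 ^ k) → ZMod (2 ^ k) → ℂ := fun a b => f1 b a with hf3
  have hR1 : Rq k f1 = (ε : ℂ) • F := by
    funext x y
    rw [hf1, Rq_neg, hR0, hr]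
    simp only [Pi.smul_apply, smul_eq_mul]
    ring
  have hR2 : Rq k f2 = (η : ℂ) • F := by
    funext x y
    rw [hf2, Rq_swap, hR0, hs]
    simp only [Pi.smul_apply, smul_eq_mul]
  have hR3 : Rq k f3 = ((ε : ℂ) * (η : ℂ)) • F := by
    funext x y
    rw [hf3, Rq_swap, hR1]
    simp only [Pi.smul_apply, smul_eq_mul]
    rw [hs]
    ring
  refine ⟨(1 / 4 : ℂ) • (f0 + (ε : ℂ) • f1 + (η : ℂ) • f2 + ((ε : ℂ) * (η : ℂ)) • f3), ?_, ?_⟩
  · change ∀ x y, _
    intro x y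
    simp only [Pi.smul_apply, Pi.add_apply, smul_eq_mul, hf3, hf2, hf1]
    refine ⟨?_, ?_, ?_, ?_⟩
    · rw [rm_neg_h hk, (hf0ap _ _).1, (hf0ap _ _).1, (hf0ap _ _).2, (hf0ap _ _).2]
      ring
    · rw [rm_neg_h hk, (hf0ap _ _).1, (hf0ap _ _).1, (hf0ap _ _).2, (hf0ap _ _).2]
      ring
    · linear_combination (-(1 / 4 : ℂ) * (f0 y x + (ε : ℂ) * f0 (-y) (-x))) * hη2
    · rw [neg_neg, neg_neg]
      linear_combination (-(1 / 4 : ℂ) * (f0 (-x) (-y) + (η : ℂ) * f0 (-y) (-x))) * hε2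
  · clear_value f1 f2 f3
    rw [map_smul, map_add, map_add, map_add, map_smul, map_smul, map_smul, hR0, hR1, hR2, hR3]
    funext x y
    simp only [Pi.smul_apply, Pi.add_apply, smul_eq_mul]
    linear_combination (1 / 4 * F x y) * hη2 + (1 / 4 * F x y) * hε2 +
      (1 / 4 * F x y * (ε : ℂ) * (ε : ℂ)) * hη2 + (1 / 4 * F x y) * hε2

/-- RMAPS: `R` maps `antiOS k η ε` onto `antiFS k η ε`. -/
theorem hRmapS : RmapS := by
  intro η ε k hη hε hk
  ext F
  rw [Submodule.mem_map]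
  constructor
  · rintro ⟨f, hf, rfl⟩
    exact maps (by omega) hη hε hf
  · intro hF
    exact onto (by omega) hη hε hF

end Pool.Agent.Helper4.TT
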